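import Pool.Agent.Q227.ST.B5

/-!
# `(p + 2)`-star colouring of `K_{1,p+1}`-free `2 p`-regular graphs is NP-complete

The reduction is from colouring with `p` colours. The graphs are made of copies of the graph whose
vertices are the arcs of the complete digraph on `p + 2` vertices, two arcs being adjacent if they
are consecutive on a directed triangle. Every star colouring with `p + 2` colours of a `2 p`-regular
graph orients the edges, and at every copy it is given by a permutation of the colours. The copies
are joined by exchanging the points of incidences in pairs, so the graphs remain `2 p`-regular.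
-/

set_option autoImplicit false

namespace Pool.Agent.Results.MP_709f11_lc.AllP

open Pool.Agent.NPC Pool.Agent.H673R2 Pool.Agent.H679R2 Pool.Agent.Q227.ST

/-- For every `p ≥ 3`, star colourability with `p + 2` colours is in `NP`, and every language in
`NP` has a polynomial-time many-one reduction to it, all of whose instances are `2 p`-regular graphs
without induced star `K_{1,p+1}`. -/
theorem result (p : ℕ) (hp : 3 ≤ p) :
    InNPP (fun I : List ℕ × List (ℕ × ℕ) => StarColourable (toGraph I) (p + 2)) ∧
    NPHardOn (fun I : List ℕ × List (ℕ × ℕ) =>
        IsRegular (toGraph I) (2 * p) ∧ StarFree (toGraph I) (p + 1))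
      (fun I : List ℕ × List (ℕ × ℕ) => StarColourable (toGraph I) (p + 2)) :=
  ⟨inNPP_star (p + 2), hard_star hp⟩

end Pool.Agent.Results.MP_709f11_lc.AllP
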